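import Mathlib
import Pool.Agent.R980.Dep

/-!
# A monotone property whose threshold gap is not bounded by a function of `d`
-/

set_option autoImplicit false

namespace Pool.Agent.Results.MP_cca6ac_pr.GapUnbounded

open Finset Filter Topology Asymptotics
open scoped Classical
open Pool.Agent.R980

/-- `P` is a monotone increasing graph property: closed under adding edges and under
isomorphism. -/
structure IsMonotoneProperty (P : (n : ℕ) → SimpleGraph (Fin n) → Prop) : Prop where
  mono : ∀ (n : ℕ) (G H : SimpleGraph (Fin n)), G ≤ H → P n G → P n H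
  iso : ∀ (n : ℕ) (G H : SimpleGraph (Fin n)), Nonempty (G ≃g H) → P n G → P n H

/-- `d(n) = O(n / ln n)` -/
def Admissible (d : ℕ → ℕ) : Prop :=
  (fun n : ℕ => (d n : ℝ)) =O[atTop] fun n : ℕ => (n : ℝ) / Real.log n

/-- `(L, U)` is a threshold pair for `P`.  Here `a ≪ b` is `a =o[atTop] b`. -/
structure IsThresholdPair (P : (n : ℕ) → SimpleGraph (Fin n) → Prop) (L U : ℕ → ℕ → ℝ) :
    Prop where
  le : ∀ n d : ℕ, 1 ≤ n → 0 < L n d ∧ L n d ≤ U n d
  /-- (i) below `L` every `d`-dependent random graph a.s. lacks `P` -/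
  lower : ∀ (d : ℕ → ℕ) (p : ℕ → ℝ), Admissible d → (∀ n, 0 ≤ p n ∧ p n ≤ 1) →
    (p =o[atTop] fun n => L n (d n)) → ∀ μ : (n : ℕ) → GraphDist n,
      (∀ n, IsDependent (μ n) (p n) (d n)) → Tendsto (fun n => (μ n).prob (P n)) atTop (𝓝 0)
  /-- (ii) above `U` every `d`-dependent random graph a.s. has `P` -/
  upper : ∀ (d : ℕ → ℕ) (p : ℕ → ℝ), Admissible d → (∀ n, 0 ≤ p n ∧ p n ≤ 1) →
    ((fun n => U n (d n)) =o[atTop] p) → ∀ μ : (n : ℕ) → GraphDist n,
      (∀ n, IsDependent (μ n) (p n) (d n)) → Tendsto (fun n => (μ n).prob (P n)) atTop (𝓝 1)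
  /-- (iii) between `L` and `U` some `d`-dependent random graph a.s. has `P` and some other
  a.s. lacks it -/
  middle : ∀ (d : ℕ → ℕ) (p : ℕ → ℝ), Admissible d → (∀ n, 0 ≤ p n ∧ p n ≤ 1) →
    ((fun n => L n (d n)) =o[atTop] p) → (p =o[atTop] fun n => U n (d n)) →
      (∃ μ : (n : ℕ) → GraphDist n, (∀ n, IsDependent (μ n) (p n) (d n)) ∧
        Tendsto (fun n => (μ n).prob (P n)) atTop (𝓝 1)) ∧
      (∃ μ : (n : ℕ) → GraphDist n, (∀ n, IsDependent (μ n) (p n) (d n)) ∧
        Tendsto (fun n => (μ n).prob (P n)) atTop (𝓝 0))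

/-- the property: two adjacent edges, or at least `⌊√n⌋` edges -/
def P (n : ℕ) (G : SimpleGraph (Fin n)) : Prop := HasCherry G ∨ Nat.sqrt n ≤ numEdges G

noncomputable def L (n d : ℕ) : ℝ := if d = 0 then (Nat.sqrt n : ℝ) / (n : ℝ) ^ 2
  else 1 / (n : ℝ) ^ 2

noncomputable def U (n d : ℕ) : ℝ := max (Nat.sqrt n : ℝ) ((d : ℝ) + 1) / (n : ℝ) ^ 2

theorem monoP : IsMonotoneProperty P where
  mono := by
    rintro n G H hGH (⟨v, a, b, h1, h2, h3⟩ | h)
    · exact Or.inl ⟨v, a, b, h1, hGH h2, hGH h3⟩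
    · right
      refine h.trans ?_
      exact Set.ncard_le_ncard (SimpleGraph.edgeSet_mono hGH) (Set.toFinite _)
  iso := by
    rintro n G H ⟨φ⟩ (⟨v, a, b, h1, h2, h3⟩ | h)
    · exact Or.inl ⟨φ v, φ a, φ b, fun h => h1 (φ.injective h), φ.map_adj_iff.2 h2,
        φ.map_adj_iff.2 h3⟩
    · right
      refine h.trans (le_of_eq ?_)
      exact Nat.card_congr φ.mapEdgeSet

theorem sqrt_pos {n : ℕ} (hn : 1 ≤ n) : 1 ≤ Nat.sqrt n := Nat.sqrt_pos.2 hn

theorem sqrt_sq_le (n : ℕ) : (Nat.sqrt n : ℝ) ^ 2 ≤ n := by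
  have := Nat.sqrt_le' n
  exact_mod_cast this

theorem choose_two_le (n : ℕ) : (n.choose 2 : ℝ) ≤ (n : ℝ) ^ 2 := by
  have := Nat.choose_le_pow n 2
  exact_mod_cast this

theorem choose_two_ge {n : ℕ} (hn : 2 ≤ n) : (n : ℝ) ^ 2 / 4 ≤ (n.choose 2 : ℝ) := by
  rw [Nat.cast_choose_two]
  have : (2 : ℝ) ≤ (n : ℝ) := by exact_mod_cast hn
  nlinarith

theorem U_pos {n : ℕ} (hn : 1 ≤ n) (d : ℕ) : 0 < U n d := by
  unfold U
  have h1 : (0 : ℝ) < (n : ℝ) := by exact_mod_cast hn
  have h2 : (0 : ℝ) < max (Nat.sqrt n : ℝ) ((d : ℝ) + 1) :=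
    lt_of_lt_of_le (by positivity) (le_max_right _ _)
  positivity

theorem L_pos {n : ℕ} (hn : 1 ≤ n) (d : ℕ) : 0 < L n d := by
  unfold L
  have h1 : (0 : ℝ) < (n : ℝ) := by exact_mod_cast hn
  have h2 : (0 : ℝ) < (Nat.sqrt n : ℝ) := by exact_mod_cast sqrt_pos hn
  split_ifs <;> positivity

theorem L_le_U (n d : ℕ) : L n d ≤ U n d := by
  unfold L U
  split_ifs with h
  · exact div_le_div_of_nonneg_right (le_max_left _ _) (by positivity)
  · refine div_le_div_of_nonneg_right (le_trans ?_ (le_max_right _ _)) (by positivity)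
    have : (0 : ℝ) ≤ (d : ℝ) := Nat.cast_nonneg d
    linarith

/-- `P` implies the existence of an edge -/
theorem one_edge {n : ℕ} (hn : 1 ≤ n) (G : SimpleGraph (Fin n)) (h : P n G) : 1 ≤ numEdges G := by
  rcases h with ⟨v, a, b, _, h2, _⟩ | h
  · have : s(v, a) ∈ G.edgeSet := h2
    exact Nat.one_le_iff_ne_zero.2 (Set.ncard_ne_zero_of_mem this (Set.toFinite _))
  · exact (sqrt_pos hn).trans h

/-- upper bound in the independent case -/
theorem indep_bound {n : ℕ} (hn : 1 ≤ n) (μ : GraphDist n) (p : ℝ) (hp : 0 ≤ p)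
    (h : IsDependent μ p 0) (x : ℝ) (hx : x = p / ((Nat.sqrt n : ℝ) / (n : ℝ) ^ 2)) :
    μ.prob (P n) ≤ x ^ 2 + x := by
  have h1 : (0 : ℝ) < (n : ℝ) := by exact_mod_cast hn
  have h2 : (0 : ℝ) < (Nat.sqrt n : ℝ) := by exact_mod_cast sqrt_pos hn
  have hpx : p = x * (Nat.sqrt n : ℝ) / (n : ℝ) ^ 2 := by
    rw [hx]; field_simp
  have hx0 : 0 ≤ x := by rw [hx]; positivity
  have e1 := μ.prob_or_le HasCherry (fun G => Nat.sqrt n ≤ numEdges G)
  have e2 := cherry_prob h
  have e3 := many_edges h (Nat.sqrt n) (sqrt_pos hn)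
  have e4 : (n : ℝ) ^ 3 * p ^ 2 ≤ x ^ 2 := by
    have : (n : ℝ) ^ 3 * p ^ 2 = x ^ 2 * ((Nat.sqrt n : ℝ) ^ 2 / n) := by
      rw [hpx]; field_simp
    rw [this]
    have h3 : (Nat.sqrt n : ℝ) ^ 2 / n ≤ 1 := by
      rw [div_le_one h1]; exact sqrt_sq_le n
    nlinarith [sq_nonneg x]
  have e5 : (n.choose 2 : ℝ) * p / (Nat.sqrt n : ℝ) ≤ x := by
    rw [div_le_iff₀ h2]
    have h3 := mul_le_mul_of_nonneg_right (choose_two_le n) hp
    refine h3.trans (le_of_eq ?_)
    rw [hpx]; field_simp
  exact e1.trans (by linarith)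

/-- upper bound in general -/
theorem general_bound {n : ℕ} (hn : 1 ≤ n) (μ : GraphDist n) (p : ℝ) (hp : 0 ≤ p) (d : ℕ)
    (h : IsDependent μ p d) : μ.prob (P n) ≤ p / (1 / (n : ℝ) ^ 2) := by
  have h1 : (0 : ℝ) < (n : ℝ) := by exact_mod_cast hn
  have e1 : μ.prob (P n) ≤ μ.prob (fun G => 1 ≤ numEdges G) :=
    μ.prob_mono fun G hG => one_edge hn G hG
  have e2 := many_edges h 1 le_rfl
  have e3 := mul_le_mul_of_nonneg_right (choose_two_le n) hp
  have e4 : p / (1 / (n : ℝ) ^ 2) = (n : ℝ) ^ 2 * p := by field_simp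
  rw [e4]
  refine e1.trans (e2.trans ?_)
  rw [Nat.cast_one, div_one]
  exact e3

theorem lowerP (d : ℕ → ℕ) (p : ℕ → ℝ) (hp : ∀ n, 0 ≤ p n ∧ p n ≤ 1)
    (hpL : p =o[atTop] fun n => L n (d n)) (μ : (n : ℕ) → GraphDist n)
    (hμ : ∀ n, IsDependent (μ n) (p n) (d n)) :
    Tendsto (fun n => (μ n).prob (P n)) atTop (𝓝 0) := by
  have hx : Tendsto (fun n => p n / L n (d n)) atTop (𝓝 0) := hpL.tendsto_div_nhds_zero
  have hb : Tendsto (fun n => (p n / L n (d n)) ^ 2 + p n / L n (d n)) atTop (𝓝 0) := by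
    have := (hx.pow 2).add hx
    simpa using this
  refine squeeze_zero' (Eventually.of_forall fun n => (μ n).prob_nonneg _) ?_ hb
  filter_upwards [eventually_ge_atTop 1] with n hn
  by_cases hd : d n = 0
  · have h1 := hμ n
    rw [hd] at h1 ⊢
    refine indep_bound hn (μ n) (p n) (hp n).1 h1 _ ?_
    unfold L
    rw [if_pos rfl]
  · have h1 := general_bound hn (μ n) (p n) (hp n).1 (d n) (hμ n)
    have h2 : L n (d n) = 1 / (n : ℝ) ^ 2 := by unfold L; rw [if_neg hd]
    rw [h2]
    linarith [sq_nonneg (p n / (1 / (n : ℝ) ^ 2))]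

theorem upperP (d : ℕ → ℕ) (p : ℕ → ℝ) (hp : ∀ n, 0 ≤ p n ∧ p n ≤ 1)
    (hpU : (fun n => U n (d n)) =o[atTop] p) (μ : (n : ℕ) → GraphDist n)
    (hμ : ∀ n, IsDependent (μ n) (p n) (d n)) :
    Tendsto (fun n => (μ n).prob (P n)) atTop (𝓝 1) := by
  have hy : Tendsto (fun n => U n (d n) / p n) atTop (𝓝 0) := hpU.tendsto_div_nhds_zero
  have hb : Tendsto (fun n => 16 * (U n (d n) / p n)) atTop (𝓝 0) := by
    simpa using hy.const_mul 16
  have hnot : Tendsto (fun n => (μ n).prob (fun G => ¬ P n G)) atTop (𝓝 0) := by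
    refine squeeze_zero' (Eventually.of_forall fun n => (μ n).prob_nonneg _) ?_ hb
    filter_upwards [eventually_ge_atTop 2, hpU.def (show (0 : ℝ) < 1 / 8 by norm_num)] with n hn h8
    have hUp := U_pos (show 1 ≤ n by omega) (d n)
    rw [Real.norm_of_nonneg hUp.le, Real.norm_of_nonneg (hp n).1] at h8
    have hp0 : 0 < p n := by linarith
    have hn0 : (0 : ℝ) < (n : ℝ) := by
      have : 0 < n := by omega
      exact_mod_cast this
    have hN := choose_two_ge hn
    have hNpos : 0 < n.choose 2 := Nat.choose_pos hn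
    have hNpos' : (0 : ℝ) < (n.choose 2 : ℝ) := by exact_mod_cast hNpos
    have hU1 : (Nat.sqrt n : ℝ) / (n : ℝ) ^ 2 ≤ U n (d n) :=
      div_le_div_of_nonneg_right (le_max_left _ _) (by positivity)
    have hU2 : ((d n : ℝ) + 1) / (n : ℝ) ^ 2 ≤ U n (d n) :=
      div_le_div_of_nonneg_right (le_max_right _ _) (by positivity)
    rw [div_le_iff₀ (by positivity)] at hU1 hU2
    have hs : (Nat.sqrt n : ℝ) ≤ (n.choose 2 : ℝ) * p n / 2 := by
      have h1 : U n (d n) * (n : ℝ) ^ 2 ≤ 1 / 8 * p n * (n : ℝ) ^ 2 :=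
        mul_le_mul_of_nonneg_right h8 (by positivity)
      nlinarith
    have e1 : (μ n).prob (fun G => ¬ P n G)
        ≤ (μ n).prob (fun G => (numEdges G : ℝ) < (n.choose 2 : ℝ) * p n / 2) := by
      refine (μ n).prob_mono fun G hG => ?_
      have h2 : numEdges G < Nat.sqrt n := by
        by_contra hcon
        exact hG (Or.inr (not_lt.1 hcon))
      have h3 : (numEdges G : ℝ) < (Nat.sqrt n : ℝ) := by exact_mod_cast h2
      linarith
    refine e1.trans ((few_edges (hμ n) hp0 hNpos).trans ?_)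
    rw [div_le_iff₀ (by positivity)]
    have h4 : 16 * (U n (d n) / p n) * ((n.choose 2 : ℝ) * p n)
        = 16 * (U n (d n) * (n.choose 2 : ℝ)) := by field_simp
    rw [h4]
    have h5 : U n (d n) * ((n : ℝ) ^ 2 / 4) ≤ U n (d n) * (n.choose 2 : ℝ) :=
      mul_le_mul_of_nonneg_left hN hUp.le
    nlinarith
  have h1 : Tendsto (fun n => 1 - (μ n).prob (fun G => ¬ P n G)) atTop (𝓝 1) := by
    simpa using hnot.const_sub 1
  refine h1.congr fun n => ?_
  have := (μ n).prob_add_not (P n)
  linarith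

/-! ### the independent random graph -/

/-- `G(n,p)` -/
noncomputable def gnpDist (n : ℕ) (p : ℝ) (h0 : 0 ≤ p) (h1 : p ≤ 1) : GraphDist n :=
  clusterDist (n := n) (K := Edge n) id p h0 h1

theorem gnpDist_dep (n : ℕ) (p : ℝ) (h0 : 0 ≤ p) (h1 : p ≤ 1) :
    IsDependent (gnpDist n p h0 h1) p 0 := by
  refine cluster_dep (n := n) (K := Edge n) id p h0 h1 0 fun k => ?_
  refine card_le_one.2 fun a ha b hb => ?_
  rw [mem_filter] at ha hb
  exact ha.2.trans hb.2.symm

/-! ### clusters that are cherries -/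

section cherries

variable {n : ℕ}

def va (n : ℕ) (i : Fin (n / 3)) : Fin n := ⟨i.1, by have := i.2; omega⟩
def vb (n : ℕ) (j : Fin (n / 3)) : Fin n := ⟨n / 3 + 2 * j.1, by have := j.2; omega⟩
def vb' (n : ℕ) (j : Fin (n / 3)) : Fin n := ⟨n / 3 + 2 * j.1 + 1, by have := j.2; omega⟩

def ka (n : ℕ) (z : Fin (n / 3) × Fin (n / 3)) : Edge n :=
  ⟨s(va n z.1, vb n z.2), by
    rw [Sym2.mk_isDiag_iff]
    intro h
    have := congrArg Fin.val h
    unfold va vb at this
    have h1 := z.1.2
    simp only at this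
    omega⟩

def kb (n : ℕ) (z : Fin (n / 3) × Fin (n / 3)) : Edge n :=
  ⟨s(va n z.1, vb' n z.2), by
    rw [Sym2.mk_isDiag_iff]
    intro h
    have := congrArg Fin.val h
    unfold va vb' at this
    have h1 := z.1.2
    simp only at this
    omega⟩

theorem ka_inj : Function.Injective (ka n) := by
  intro z w h
  have h1 := congrArg Subtype.val h
  unfold ka at h1
  simp only at h1
  rw [Sym2.eq_iff] at h1
  have a1 := z.1.2
  have a2 := w.1.2
  rcases h1 with ⟨h2, h3⟩ | ⟨h2, h3⟩
  · have e2 := congrArg Fin.val h2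
    have e3 := congrArg Fin.val h3
    unfold va at e2
    unfold vb at e3
    simp only at e2 e3
    exact Prod.ext (Fin.ext e2) (Fin.ext (by omega))
  · have e2 := congrArg Fin.val h2
    unfold va vb at e2
    simp only at e2
    omega

theorem kb_inj : Function.Injective (kb n) := by
  intro z w h
  have h1 := congrArg Subtype.val h
  unfold kb at h1
  simp only at h1
  rw [Sym2.eq_iff] at h1
  have a1 := z.1.2
  have a2 := w.1.2
  rcases h1 with ⟨h2, h3⟩ | ⟨h2, h3⟩
  · have e2 := congrArg Fin.val h2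
    have e3 := congrArg Fin.val h3
    unfold va at e2
    unfold vb' at e3
    simp only at e2 e3
    exact Prod.ext (Fin.ext e2) (Fin.ext (by omega))
  · have e2 := congrArg Fin.val h2
    unfold va vb' at e2
    simp only at e2
    omega

theorem ka_ne_kb (z w : Fin (n / 3) × Fin (n / 3)) : ka n z ≠ kb n w := by
  intro h
  have h1 := congrArg Subtype.val h
  unfold ka kb at h1
  simp only at h1
  rw [Sym2.eq_iff] at h1
  have a1 := z.1.2
  have a2 := w.1.2
  rcases h1 with ⟨h2, h3⟩ | ⟨h2, h3⟩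
  · have e3 := congrArg Fin.val h3
    unfold vb vb' at e3
    simp only at e3
    omega
  · have e2 := congrArg Fin.val h2
    unfold va vb' at e2
    simp only at e2
    omega

/-- the cluster map: the edge `kb z` is glued to the edge `ka z` -/
noncomputable def cm (n : ℕ) (e : Edge n) : Edge n :=
  if h : ∃ z, e = kb n z then ka n h.choose else e

theorem cm_kb (z : Fin (n / 3) × Fin (n / 3)) : cm n (kb n z) = ka n z := by
  have h : ∃ w, kb n z = kb n w := ⟨z, rfl⟩
  unfold cm
  rw [dif_pos h]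
  congr 1
  exact (kb_inj h.choose_spec).symm

theorem cm_ka (z : Fin (n / 3) × Fin (n / 3)) : cm n (ka n z) = ka n z := by
  unfold cm
  rw [dif_neg]
  rintro ⟨w, h⟩
  exact ka_ne_kb z w h

theorem cm_card (k : Edge n) : (univ.filter fun e => cm n e = k).card ≤ 1 + 1 := by
  by_cases hk : ∃ z, k = ka n z
  · obtain ⟨z, rfl⟩ := hk
    have h1 : (univ.filter fun e => cm n e = ka n z) ⊆ {ka n z, kb n z} := by
      intro e he
      rw [mem_filter] at he
      rw [mem_insert, mem_singleton]
      by_cases h : ∃ w, e = kb n w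
      · obtain ⟨w, rfl⟩ := h
        rw [cm_kb] at he
        right
        rw [ka_inj he.2]
      · left
        have := he.2
        unfold cm at this
        rwa [dif_neg h] at this
    exact (card_le_card h1).trans card_le_two
  · have h1 : (univ.filter fun e => cm n e = k) ⊆ {k} := by
      intro e he
      rw [mem_filter] at he
      rw [mem_singleton]
      by_cases h : ∃ w, e = kb n w
      · obtain ⟨w, rfl⟩ := h
        rw [cm_kb] at he
        exact absurd ⟨w, he.2.symm⟩ hk
      · have := he.2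
        unfold cm at this
        rwa [dif_neg h] at this
    exact (card_le_card h1).trans (by simp)

noncomputable def cherryDist (n : ℕ) (p : ℝ) (h0 : 0 ≤ p) (h1 : p ≤ 1) : GraphDist n :=
  clusterDist (n := n) (K := Edge n) (cm n) p h0 h1

theorem cherryDist_dep (n : ℕ) (p : ℝ) (h0 : 0 ≤ p) (h1 : p ≤ 1) :
    IsDependent (cherryDist n p h0 h1) p 1 :=
  cluster_dep (n := n) (K := Edge n) (cm n) p h0 h1 1 fun k => cm_card k

theorem cherryDist_prob (hn : 3 ≤ n) (p : ℝ) (h0 : 0 < p) (h1 : p ≤ 1) :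
    (cherryDist n p h0.le h1).prob (fun G => ¬ P n G) ≤ 81 * (1 / (n : ℝ) ^ 2 / p) := by
  have h2 : (cherryDist n p h0.le h1).prob (fun G => ¬ P n G) ≤
      bex p (fun y : Edge n → Bool => ind (∀ k ∈ univ.image (ka n), y k = false)) := by
    unfold cherryDist
    rw [cluster_prob]
    refine bex_mono h0.le h1 fun y => ?_
    by_cases hA : ¬ P n (ofBool fun e => y (cm n e))
    · have hB : ∀ k ∈ univ.image (ka n), y k = false := by
        intro k hk
        rw [mem_image] at hk
        obtain ⟨z, -, rfl⟩ := hk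
        by_contra hcon
        rw [Bool.not_eq_false] at hcon
        apply hA
        left
        have e1 : present (ka n z) (ofBool fun e => y (cm n e)) := by
          rw [present_ofBool, cm_ka]; exact hcon
        have e2 : present (kb n z) (ofBool fun e => y (cm n e)) := by
          rw [present_ofBool, cm_kb]; exact hcon
        refine ⟨va n z.1, vb n z.2, vb' n z.2, ?_, e1, e2⟩
        intro h
        have := congrArg Fin.val h
        unfold vb vb' at this
        simp only at this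
        omega
      rw [ind_pos hA, ind_pos hB]
    · rw [ind_neg hA]
      exact GraphDist.ind_nonneg _
  refine h2.trans ?_
  rw [bex_none, card_image_of_injective _ ka_inj, card_univ, Fintype.card_prod, Fintype.card_fin]
  have hn0 : (0 : ℝ) < (n : ℝ) := by
    have : 0 < n := by omega
    exact_mod_cast this
  have hm : (n : ℝ) / 9 ≤ ((n / 3 : ℕ) : ℝ) := by
    have h3 : n ≤ 9 * (n / 3) := by omega
    have h4 : (n : ℝ) ≤ 9 * ((n / 3 : ℕ) : ℝ) := by exact_mod_cast h3
    linarith
  have hm0 : (0 : ℝ) < ((n / 3 : ℕ) : ℝ) := by linarith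
  -- (1-p)^M ≤ exp(-pM) ≤ 1/(pM)
  have h3 : (1 - p) ^ (n / 3 * (n / 3)) ≤ 1 / (p * (((n / 3 : ℕ) : ℝ) * ((n / 3 : ℕ) : ℝ))) := by
    have h4 : 1 - p ≤ Real.exp (-p) := by
      have := Real.add_one_le_exp (-p)
      linarith
    refine (pow_le_pow_left₀ (by linarith) h4 _).trans ?_
    rw [← Real.exp_nat_mul]
    push_cast
    have h5 := Real.add_one_le_exp (p * (((n / 3 : ℕ) : ℝ) * ((n / 3 : ℕ) : ℝ)))
    have h6 : 0 < p * (((n / 3 : ℕ) : ℝ) * ((n / 3 : ℕ) : ℝ)) := by positivity
    rw [mul_neg, Real.exp_neg, ← one_div]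
    refine one_div_le_one_div_of_le h6 ?_
    rw [mul_comm] at h5
    rw [mul_comm p] at *
    linarith
  refine h3.trans ?_
  have h4 : 81 * (1 / (n : ℝ) ^ 2 / p) = 1 / (p * ((n : ℝ) / 9 * ((n : ℝ) / 9))) := by
    field_simp
    norm_num
  rw [h4]
  refine one_div_le_one_div_of_le (by positivity) ?_
  refine mul_le_mul_of_nonneg_left ?_ h0.le
  exact mul_le_mul hm hm (by positivity) hm0.le

end cherries

/-! ### big clusters -/

section big

/-- cluster index -/
noncomputable def ci (n d : ℕ) (e : Edge n) : Fin (n.choose 2 / (d + 1) + 1) :=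
  ⟨(Fintype.equivFinOfCardEq (card_Edge n) e).1 / (d + 1), by
    have h := (Fintype.equivFinOfCardEq (card_Edge n) e).2
    have := Nat.div_le_div_right (c := d + 1) h.le
    omega⟩

theorem ci_card (n d : ℕ) (k : Fin (n.choose 2 / (d + 1) + 1)) :
    (univ.filter fun e => ci n d e = k).card ≤ d + 1 := by
  have h1 : (univ.filter fun e => ci n d e = k).card
      ≤ (Finset.Ico (k.1 * (d + 1)) (k.1 * (d + 1) + (d + 1))).card := by
    refine card_le_card_of_injOn (fun e => (Fintype.equivFinOfCardEq (card_Edge n) e).1) ?_ ?_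
    · intro e he
      rw [mem_coe, mem_filter] at he
      rw [mem_coe, mem_Ico]
      have h2 := congrArg Fin.val he.2
      unfold ci at h2
      simp only at h2
      have h3 := Nat.div_add_mod (Fintype.equivFinOfCardEq (card_Edge n) e).1 (d + 1)
      have h4 := Nat.mod_lt (Fintype.equivFinOfCardEq (card_Edge n) e).1 (Nat.succ_pos d)
      rw [h2] at h3
      simp only [Nat.succ_eq_add_one] at h4
      have h5 : k.1 * (d + 1) = (d + 1) * k.1 := mul_comm _ _
      rw [h5]
      beta_reduce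
      constructor
      · omega
      · omega
    · intro a _ b _ h
      exact (Fintype.equivFinOfCardEq (card_Edge n)).injective (Fin.ext h)
  rw [Nat.card_Ico] at h1
  omega

noncomputable def bigDist (n d : ℕ) (p : ℝ) (h0 : 0 ≤ p) (h1 : p ≤ 1) : GraphDist n :=
  clusterDist (ci n d) p h0 h1

theorem bigDist_dep (n d : ℕ) (p : ℝ) (h0 : 0 ≤ p) (h1 : p ≤ 1) :
    IsDependent (bigDist n d p h0 h1) p d :=
  cluster_dep (ci n d) p h0 h1 d fun k => ci_card n d k

theorem bigDist_prob {n : ℕ} (hn : 1 ≤ n) (d : ℕ) (p : ℝ) (h0 : 0 ≤ p) (h1 : p ≤ 1) :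
    (bigDist n d p h0 h1).prob (P n) ≤ p / (((d : ℝ) + 1) / (n : ℝ) ^ 2) + p := by
  have hn0 : (0 : ℝ) < (n : ℝ) := by
    have : 0 < n := by omega
    exact_mod_cast this
  have h2 : (bigDist n d p h0 h1).prob (P n) ≤
      1 - bex p (fun y : Fin (n.choose 2 / (d + 1) + 1) → Bool =>
        ind (∀ k ∈ (univ : Finset (Fin (n.choose 2 / (d + 1) + 1))), y k = false)) := by
    unfold bigDist
    rw [cluster_prob, ← bex_const (E := Fin (n.choose 2 / (d + 1) + 1)) p 1, ← bex_sub]
    refine bex_mono h0 h1 fun y => ?_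
    by_cases hA : P n (ofBool fun e => y (ci n d e))
    · have h3 := one_edge hn _ hA
      have hB : ¬ ∀ k ∈ (univ : Finset (Fin (n.choose 2 / (d + 1) + 1))), y k = false := by
        intro hall
        have h4 : numEdges (ofBool fun e => y (ci n d e)) = 0 := by
          have h5 : ((numEdges (ofBool fun e => y (ci n d e)) : ℕ) : ℝ) = 0 := by
            rw [numEdges_eq]
            refine sum_eq_zero fun e _ => ind_neg ?_
            rw [present_ofBool, hall _ (mem_univ _)]
            simp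
          exact_mod_cast h5
        omega
      rw [ind_pos hA, ind_neg hB]
      norm_num
    · rw [ind_neg hA]
      linarith [GraphDist.ind_le_one (∀ k ∈ (univ : Finset (Fin (n.choose 2 / (d + 1) + 1))),
        y k = false)]
  refine h2.trans ?_
  rw [bex_none, card_univ, Fintype.card_fin]
  have h3 := one_add_mul_le_pow (a := -p) (by linarith) (n.choose 2 / (d + 1) + 1)
  have h4 : (1 : ℝ) + -p = 1 - p := by ring
  rw [h4] at h3
  push_cast at h3
  have h5 : ((n.choose 2 / (d + 1) : ℕ) : ℝ) ≤ (n : ℝ) ^ 2 / ((d : ℝ) + 1) := by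
    refine (Nat.cast_div_le).trans ?_
    push_cast
    exact div_le_div_of_nonneg_right (choose_two_le n) (by positivity)
  have h6 : p / (((d : ℝ) + 1) / (n : ℝ) ^ 2) = (n : ℝ) ^ 2 / ((d : ℝ) + 1) * p := by
    field_simp
  rw [h6]
  nlinarith

end big

theorem adm_bound (d : ℕ → ℕ) (hd : Admissible d) :
    ∀ᶠ n : ℕ in atTop, ((d n : ℝ) + 1) / (n : ℝ) ^ 2 ≤ 1 := by
  obtain ⟨C, hC⟩ := hd.bound
  filter_upwards [hC, eventually_ge_atTop 3, eventually_ge_atTop (⌈|C| + 1⌉₊)] with n h1 h3 h4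
  have hn3 : (3 : ℝ) ≤ (n : ℝ) := by exact_mod_cast h3
  have hn4 : |C| + 1 ≤ (n : ℝ) := (Nat.le_ceil _).trans (by exact_mod_cast h4)
  have hlog : 1 ≤ Real.log n := by
    rw [Real.le_log_iff_exp_le (by linarith)]
    exact (Real.exp_one_lt_d9.le.trans (by norm_num)).trans hn3
  rw [Real.norm_of_nonneg (Nat.cast_nonneg _), Real.norm_of_nonneg (by positivity)] at h1
  rw [div_le_one (by positivity)]
  have h5 : (n : ℝ) / Real.log n ≤ n := div_le_self (by linarith) hlog
  have h6 : C * ((n : ℝ) / Real.log n) ≤ |C| * n := by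
    calc C * ((n : ℝ) / Real.log n) ≤ |C| * ((n : ℝ) / Real.log n) :=
          mul_le_mul_of_nonneg_right (le_abs_self C) (by positivity)
      _ ≤ |C| * n := mul_le_mul_of_nonneg_left h5 (abs_nonneg C)
  nlinarith

theorem middleP (d : ℕ → ℕ) (p : ℕ → ℝ) (hd : Admissible d) (hp : ∀ n, 0 ≤ p n ∧ p n ≤ 1)
    (hL : (fun n => L n (d n)) =o[atTop] p) (hU : p =o[atTop] fun n => U n (d n)) :
      (∃ μ : (n : ℕ) → GraphDist n, (∀ n, IsDependent (μ n) (p n) (d n)) ∧
        Tendsto (fun n => (μ n).prob (P n)) atTop (𝓝 1)) ∧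
      (∃ μ : (n : ℕ) → GraphDist n, (∀ n, IsDependent (μ n) (p n) (d n)) ∧
        Tendsto (fun n => (μ n).prob (P n)) atTop (𝓝 0)) := by
  constructor
  · refine ⟨fun n => if d n = 0 then gnpDist n (p n) (hp n).1 (hp n).2 else
      cherryDist n (p n) (hp n).1 (hp n).2, ?_, ?_⟩
    · intro n
      by_cases h : d n = 0
      · simp only [if_pos h]
        rw [h]
        exact gnpDist_dep _ _ _ _
      · simp only [if_neg h]
        exact (cherryDist_dep _ _ _ _).mono (by omega)
    · have hz : Tendsto (fun n => L n (d n) / p n) atTop (𝓝 0) := hL.tendsto_div_nhds_zero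
      have hb : Tendsto (fun n => 81 * (L n (d n) / p n)) atTop (𝓝 0) := by
        simpa using hz.const_mul 81
      have hnot : Tendsto (fun n => (if d n = 0 then gnpDist n (p n) (hp n).1 (hp n).2 else
          cherryDist n (p n) (hp n).1 (hp n).2).prob (fun G => ¬ P n G)) atTop (𝓝 0) := by
        refine squeeze_zero' (Eventually.of_forall fun n => GraphDist.prob_nonneg _ _) ?_ hb
        filter_upwards [eventually_ge_atTop 3, hL.def (show (0 : ℝ) < 1 / 2 by norm_num),
          hU.def (show (0 : ℝ) < 1 / 2 by norm_num)] with n hn h1 h2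
        have hLp := L_pos (show 1 ≤ n by omega) (d n)
        have hUp := U_pos (show 1 ≤ n by omega) (d n)
        rw [Real.norm_of_nonneg hLp.le, Real.norm_of_nonneg (hp n).1] at h1
        rw [Real.norm_of_nonneg hUp.le, Real.norm_of_nonneg (hp n).1] at h2
        have hp0 : 0 < p n := by linarith
        have hdn : d n ≠ 0 := by
          intro h
          have e1 : U n (d n) ≤ L n (d n) := by
            unfold U L
            rw [if_pos h, h]
            refine div_le_div_of_nonneg_right ?_ (by positivity)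
            have : (1 : ℝ) ≤ (Nat.sqrt n : ℝ) := by
              exact_mod_cast sqrt_pos (show 1 ≤ n by omega)
            push_cast
            rw [zero_add]
            exact max_le le_rfl this
          linarith
        rw [if_neg hdn]
        have h3 := cherryDist_prob hn (p n) hp0 (hp n).2
        have h4 : L n (d n) = 1 / (n : ℝ) ^ 2 := by unfold L; rw [if_neg hdn]
        rw [h4]
        exact h3
      have h1 : Tendsto (fun n => 1 - (if d n = 0 then gnpDist n (p n) (hp n).1 (hp n).2 else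
          cherryDist n (p n) (hp n).1 (hp n).2).prob (fun G => ¬ P n G)) atTop (𝓝 1) := by
        simpa using hnot.const_sub 1
      refine h1.congr fun n => ?_
      have := GraphDist.prob_add_not (if d n = 0 then gnpDist n (p n) (hp n).1 (hp n).2 else
          cherryDist n (p n) (hp n).1 (hp n).2) (P n)
      linarith
  · refine ⟨fun n => if d n + 1 ≤ Nat.sqrt n then gnpDist n (p n) (hp n).1 (hp n).2 else
      bigDist n (d n) (p n) (hp n).1 (hp n).2, ?_, ?_⟩
    · intro n
      by_cases h : d n + 1 ≤ Nat.sqrt n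
      · simp only [if_pos h]
        exact (gnpDist_dep _ _ _ _).mono (Nat.zero_le _)
      · simp only [if_neg h]
        exact bigDist_dep _ _ _ _ _
    · have hx : Tendsto (fun n => p n / U n (d n)) atTop (𝓝 0) := hU.tendsto_div_nhds_zero
      have hb : Tendsto (fun n => (p n / U n (d n)) ^ 2 + 2 * (p n / U n (d n))) atTop (𝓝 0) := by
        have := (hx.pow 2).add (hx.const_mul 2)
        simpa using this
      refine squeeze_zero' (Eventually.of_forall fun n => GraphDist.prob_nonneg _ _) ?_ hb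
      filter_upwards [eventually_ge_atTop 1, adm_bound d hd] with n hn had
      have hUp := U_pos hn (d n)
      have hn0 : (0 : ℝ) < (n : ℝ) := by exact_mod_cast hn
      have hx0 : 0 ≤ p n / U n (d n) := div_nonneg (hp n).1 hUp.le
      by_cases h : d n + 1 ≤ Nat.sqrt n
      · rw [if_pos h]
        have e1 : U n (d n) = (Nat.sqrt n : ℝ) / (n : ℝ) ^ 2 := by
          unfold U
          rw [max_eq_left]
          exact_mod_cast h
        have h3 := indep_bound hn _ (p n) (hp n).1 (gnpDist_dep n (p n) (hp n).1 (hp n).2)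
          (p n / U n (d n)) (by rw [e1])
        linarith
      · rw [if_neg h]
        have e1 : U n (d n) = ((d n : ℝ) + 1) / (n : ℝ) ^ 2 := by
          unfold U
          rw [max_eq_right]
          have : Nat.sqrt n ≤ d n + 1 := by omega
          exact_mod_cast this
        have h3 := bigDist_prob hn (d n) (p n) (hp n).1 (hp n).2
        rw [← e1] at h3 had
        have h4 : p n ≤ p n / U n (d n) := by
          rw [le_div_iff₀ hUp]
          nlinarith [(hp n).1]
        nlinarith [sq_nonneg (p n / U n (d n))]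

theorem ratio_tendsto : Tendsto (fun n => U n 1 / L n 1) atTop atTop := by
  have h1 : Tendsto (fun n : ℕ => (Nat.sqrt n : ℝ)) atTop atTop := by
    refine tendsto_natCast_atTop_atTop.comp (tendsto_atTop.2 fun b => ?_)
    filter_upwards [eventually_ge_atTop (b * b)] with n hn
    exact Nat.le_sqrt.2 hn
  refine tendsto_atTop_mono' _ ?_ h1
  filter_upwards [eventually_ge_atTop 1] with n hn
  have hn0 : (0 : ℝ) < (n : ℝ) := by exact_mod_cast hn
  unfold U L
  rw [if_neg one_ne_zero, div_div_div_cancel_right₀ (by positivity), div_one]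
  exact le_max_left _ _

/-- There are a monotone graph property `P` and a threshold pair `(L, U)` for `P` with
`U(n,1)/L(n,1) → ∞`; hence no function `f` of `d` alone satisfies `U/L = O(f(d))`. -/
theorem result : ∃ P : (n : ℕ) → SimpleGraph (Fin n) → Prop, IsMonotoneProperty P ∧
    ∃ L U : ℕ → ℕ → ℝ, IsThresholdPair P L U ∧
      Tendsto (fun n => U n 1 / L n 1) atTop atTop ∧
      ¬ ∃ f : ℕ → ℝ, ∀ d : ℕ → ℕ, Admissible d →
        (fun n => U n (d n) / L n (d n)) =O[atTop] fun n => f (d n) := by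
  refine ⟨P, monoP, L, U, ⟨fun n d hn => ⟨L_pos hn d, L_le_U n d⟩, fun d p _ hp h μ hμ =>
    lowerP d p hp h μ hμ, fun d p _ hp h μ hμ => upperP d p hp h μ hμ,
    fun d p hd hp h1 h2 => middleP d p hd hp h1 h2⟩, ratio_tendsto, ?_⟩
  rintro ⟨f, hf⟩
  have hadm : Admissible (fun _ => 1) := by
    refine IsBigO.of_bound 1 ?_
    filter_upwards [eventually_ge_atTop 2] with n hn
    have hn0 : (2 : ℝ) ≤ (n : ℝ) := by exact_mod_cast hn
    have h2 := Real.log_le_sub_one_of_pos (show (0 : ℝ) < (n : ℝ) by linarith)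
    have h3 : 0 < Real.log n := Real.log_pos (by linarith)
    rw [Nat.cast_one, norm_one, one_mul, Real.norm_of_nonneg (by positivity), le_div_iff₀ h3]
    linarith
  obtain ⟨C, hC⟩ := (hf (fun _ => 1) hadm).bound
  have h2 := ratio_tendsto.eventually_gt_atTop (C * ‖f 1‖)
  obtain ⟨n, h3, h4⟩ := (hC.and h2).exists
  have h5 := (le_abs_self (U n 1 / L n 1)).trans h3
  linarith

end Pool.Agent.Results.MP_cca6ac_pr.GapUnbounded
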